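import Pool.Agent.J4H45.HC.Slabs

/-!
# MP_eba1ef_gt: hyperplane sections of products, and intersections of `d + 1` slabs

Let `K` be a convex body in `ℝ^d` which is an intersection of `r` cylinders `{x | l_i x ∈ C_i}`
over convex bodies `C_i` in `ℝ^(n_i)` (`l_i` linear and onto), of total dimension
`n_1 + ... + n_r = d + 1`. In other words, `K` is affinely equivalent to a section of the product
`C_1 × ... × C_r`, of dimension `d + 1`, by a hyperplane. Suppose that each `C_i` is smooth (then
put `h_i = n_i`), or more generally smooth outside of the convex hull of `b_i` of its points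
(`h_i = n_i + b_i`), or has at most `h_i + 1` vertices. Then `K` is covered by `2^(r-1) ∏ h_i`
translates of its interior. This is at most `2^d` if `h_i ≤ 2^(n_i - 1)` for all `i`, for instance if
all `C_i` are smooth bodies, segments, simplices, or polytopes with at most `2^(n_i - 1) + 1` vertices.

If all `n_i = 1` these are the convex polytopes `K` given by `d + 1` double inequalities
`α_i ≤ ⟪a_i, x⟫ ≤ β_i`, so with facets in at most `d + 1` pairs of parallel hyperplanes, for instance
the centrally symmetric polytopes with at most `2 d + 2` facets. Such a `K` is covered by `2^d`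
translates of its interior, and by `2^d - 1` translates unless it is a parallelotope. (The number
`2^d - 1` is attained by the cube with one truncated corner.)

Definitions (in `Pool/Agent/J4H45/HC/{Ill,Final,Slabs}.lean`):

* `E d = EuclideanSpace ℝ (Fin d)`;
* `SmoothOutside C F`: any two nonzero linear functionals which attain their maximum over `C` at the
  same point of `C` outside of the convex hull of `F` are positive multiples of each other;
* `Factor C h`: `C` is compact and convex, and it is the convex hull of `h + 1` points or smooth
  outside of the convex hull of `b` of its points, with `h = n + b`;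
* `CoveredBy K N`: `K` is covered by at most `N` translates of its interior;
* `Slabs a α β`: the set of the `x` with `α_i ≤ ⟪a_i, x⟫ ≤ β_i` for all `i`;
* `Parallelotope K`: `K = Slabs u α β` for `d` linearly independent vectors `u_i`.

Proof. There is exactly one linear relation `∑ φ_i (l_i x) = 0`, with functionals `φ_i` on
`ℝ^(n_i)`. Call `x` low (high) at `i` if `φ_i (l_i x)` is near the minimum (maximum) of `φ_i` on
`C_i`. There are `h_i` directions with `φ_i = 1` which illuminate all points of `C_i` except the
high ones, and `h_i` directions with `φ_i = -1` which illuminate all except the low ones. A vector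
of such directions with signs `θ_i`, not all equal, can be rescaled such that it satisfies the
relation, and then it comes from a direction in `ℝ^d`. So one needs a set of sign vectors `θ`
such that for each `x ∈ K` one of them is `+` at the low and `-` at the high places of `x`; the
free places are prescribed by nothing. If `b_i > 0` is the difference of the maximum and the minimum
of `φ_i` and `t = -∑ min φ_i`, then the sum of `b_i` over the high places is at most `t`, and the sum
over the places which are not low is at least `t`. Fix a place `p`. The `2^(r-1)` sign vectors
which are arbitrary outside of `p` and at `p` are `-` iff the weight `w` of the other minus signs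
satisfies `w + b_p ≤ t` or `w = 0`, have the required property.
-/

set_option autoImplicit false

namespace Pool.Agent.J4H45.HyperplaneSections

open Pool.Agent.J4H45.HC

theorem result :
    -- intersections of cylinders of total dimension `d + 1`
    (∀ (d r : ℕ) (n h : Fin r → ℕ), (∀ i, 1 ≤ n i) → ∑ i, n i = d + 1 →
      ∀ l : ∀ i, E d →ₗ[ℝ] E (n i), (∀ i, Function.Surjective (l i)) →
      ∀ C : ∀ i, Set (E (n i)), (∀ i, Factor (C i) (h i)) →
      ∀ K : Set (E d), K = ⋂ i, l i ⁻¹' C i → IsCompact K → (interior K).Nonempty →
      CoveredBy K (2 ^ (r - 1) * ∏ i, h i) ∧
        ((∀ i, h i ≤ 2 ^ (n i - 1)) → CoveredBy K (2 ^ d))) ∧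
    -- intersections of `d + 1` slabs
    (∀ (d : ℕ) (a : Fin (d + 1) → E d) (α β : Fin (d + 1) → ℝ), (∀ i, a i ≠ 0) →
      IsCompact (Slabs a α β) → (interior (Slabs a α β)).Nonempty →
      CoveredBy (Slabs a α β) (2 ^ d) ∧
        (¬ Parallelotope (Slabs a α β) → CoveredBy (Slabs a α β) (2 ^ d - 1))) := by
  refine ⟨?_, ?_⟩
  · intro d r n h hn hsum l hl C hC K hK hKc hKi
    have h1 := covered n h hn hsum l hl C hC hK hKc hKi
    refine ⟨h1, fun hh => ?_⟩
    obtain ⟨T, hT, hcov⟩ := h1
    exact ⟨T, hT.trans (bound_le n h hn hsum hh), hcov⟩
  · intro d a α β ha hKc hKi
    obtain ⟨h1, h2⟩ := slabs a ha α β hKc hKi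
    exact ⟨h1, fun hp => h2.resolve_left hp⟩

end Pool.Agent.J4H45.HyperplaneSections
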